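import Pool.Agent.H740R3.BQStmts

set_option autoImplicit false

/-! T8 of project H740-BQ: `1 + A` has spectrum `{1}` for quasinilpotent `A`. -/

namespace Pool.Agent.H783R3.BQ

open Pool.Agent.H740R3.BQ

universe u

theorem spec_one_add {R : Type u} [NormedRing R] [NormedAlgebra ℂ R] [CompleteSpace R]
    [NormOneClass R] [Nontrivial R] (A : R)
    (h : ∀ δ : ℝ, 0 < δ → ∃ m : ℕ, 1 ≤ m ∧ ‖A ^ m‖ ≤ δ ^ m) :
    spectrum ℂ (1 + A) = {1} := by
  have hsub : spectrum ℂ A ⊆ {0} := by
    intro z hz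
    rw [Set.mem_singleton_iff]
    by_contra hne
    have hz0 : 0 < ‖z‖ := norm_pos_iff.2 hne
    obtain ⟨m, hm, hA⟩ := h (‖z‖ / 2) (by positivity)
    have h1 := spectrum.pow_mem_pow A m hz
    have h2 := spectrum.norm_le_norm_of_mem h1
    rw [norm_pow] at h2
    have h4 : (‖z‖ / 2) ^ m < ‖z‖ ^ m :=
      pow_lt_pow_left₀ (by linarith) (by positivity) (by omega)
    linarith
  have key : spectrum ℂ A = {0} := by
    apply Set.Subset.antisymm hsub
    obtain ⟨z, hz⟩ := spectrum.nonempty A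
    have hz' : z = 0 := hsub hz
    rw [Set.singleton_subset_iff]
    rwa [hz'] at hz
  have h5 := spectrum.add_singleton_eq (R := ℂ) A 1
  rw [key, map_one, add_comm A 1] at h5
  rw [← h5]
  simp

theorem t8 : T8.{u} := by
  intro X _ _ _ _ A h
  exact spec_one_add A h

end Pool.Agent.H783R3.BQ
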